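import Pool.Agent.MP_c853c5_nt.DV.F4950a.P0
import Pool.Agent.MP_c853c5_nt.DV.F4950a.P1
import Pool.Agent.MP_c853c5_nt.DV.F4950a.P2
import Pool.Agent.MP_c853c5_nt.DV.F4950a.P3
import Pool.Agent.MP_c853c5_nt.DV.F4950a.P4

set_option autoImplicit false
set_option maxRecDepth 100000

namespace Pool.Agent.MP_c853c5_nt.X.F4950a

open Pool.Agent.MP_c853c5_nt.REG

noncomputable def tab : BT PP := (.nd 390 (.nd 183 (.nd 75 (.nd 40 (.nd 17 (.nd 8 (.nd 5 (.nd 3 (.lf p0) (.lf p1)) (.nd 1 (.lf p2) (.nd 1 (.lf p3) (.lf p4)))) (.nd 3 (.nd 2 (.lf p5) (.lf p6)) (.nd 4 (.lf p7) (.nd 1 (.lf p8) (.lf p9))))) (.nd 11 (.nd 3 (.nd 1 (.lf p10) (.lf p11)) (.nd 1 (.lf p12) (.nd 4 (.lf p13) (.lf p14)))) (.nd 2 (.nd 1 (.lf p15) (.lf p16)) (.nd 2 (.lf p17) (.nd 1 (.lf p18) (.lf p19)))))) (.nd 17 (.nd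 11 (.nd 4 (.nd 2 (.lf p20) (.lf p21)) (.nd 3 (.lf p22) (.nd 3 (.lf p23) (.lf p24)))) (.nd 2 (.nd 1 (.lf p25) (.lf p26)) (.nd 1 (.lf p27) (.nd 1 (.lf p28) (.lf p29))))) (.nd 8 (.nd 2 (.nd 1 (.lf p30) (.lf p31)) (.nd 3 (.lf p32) (.nd 2 (.lf p33) (.lf p34)))) (.nd 3 (.nd 1 (.lf p35) (.lf p36)) (.nd 3 (.lf p37) (.nd 1 (.lf p38) (.lf p39))))))) (.nd 47 (.nd 17 (.nd 5 (.nd 2 (.nd 1 (.lf p40) (.lf p41)) (.nd 1 (.lf p42) (.nd 1 (.lf p43) (.lf p44)))) (.nd 8 (.nd 2 (.lf p45) (.lf p46)) (.nd 1 (.lf p47) (.nd 1 (.lf p48) (.lf p49))))) (.nd 18 (.nd 8 (.nd 2 (.lf p50) (.lf p51)) (.nd 3 (.lf p52) (.nd 3 (.lf p53) (.lf p54)))) (.nd 5 (.nd 1 (.lf p55) (.lf p56)) (.nd 1 (.lf p57) (.nd 4 (.lf p58) (.lf p59)))))) (.nd 22 (.nd 14 (.nd 6 (.nd 5 (.lf p60) (.lf p61)) (.nd 3 (.lf p62) (.nd 4 (.lf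 p63) (.lf p64)))) (.nd 5 (.nd 3 (.lf p65) (.lf p66)) (.nd 1 (.lf p67) (.nd 1 (.lf p68) (.lf p69))))) (.nd 15 (.nd 3 (.nd 2 (.lf p70) (.lf p71)) (.nd 7 (.lf p72) (.nd 1 (.lf p73) (.lf p74)))) (.nd 13 (.nd 1 (.lf p75) (.nd 7 (.lf p76) (.lf p77))) (.nd 9 (.lf p78) (.nd 1 (.lf p79) (.lf p80)))))))) (.nd 93 (.nd 45 (.nd 25 (.nd 13 (.nd 6 (.nd 1 (.lf p81) (.lf p82)) (.nd 2 (.lf p83) (.nd 3 (.lf p84) (.lf p85)))) (.nd 7 (.nd 5 (.lf p86) (.lf p87)) (.nd 1 (.lf p88) (.nd 2 (.lf p89) (.lf p90))))) (.nd 12 (.nd 4 (.nd 1 (.lf p91) (.lf p92)) (.nd 5 (.lf p93) (.nd 2 (.lf p94) (.lf p95)))) (.nd 2 (.nd 1 (.lf p96) (.lf p97)) (.nd 1 (.lf p98) (.nd 1 (.lf p99) (.lf p100)))))) (.nd 21 (.nd 7 (.nd 2 (.nd 1 (.lf p101) (.lf p102)) (.nd 3 (.lf p103) (.nd 1 (.lf p104) (.lf p105)))) (.nd 7 (.nd 3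 (.lf p106) (.lf p107)) (.nd 5 (.lf p108) (.nd 1 (.lf p109) (.lf p110))))) (.nd 14 (.nd 9 (.nd 3 (.lf p111) (.lf p112)) (.nd 1 (.lf p113) (.nd 2 (.lf p114) (.lf p115)))) (.nd 7 (.nd 2 (.lf p116) (.lf p117)) (.nd 3 (.lf p118) (.nd 2 (.lf p119) (.lf p120))))))) (.nd 52 (.nd 27 (.nd 12 (.nd 6 (.nd 5 (.lf p121) (.lf p122)) (.nd 2 (.lf p123) (.nd 1 (.lf p124) (.lf p125)))) (.nd 11 (.nd 5 (.lf p126) (.lf p127)) (.nd 1 (.lf p128) (.nd 1 (.lf p129) (.lf p130))))) (.nd 7 (.nd 3 (.nd 2 (.lf p131) (.lf p132)) (.nd 2 (.lf p133) (.nd 1 (.lf p134) (.lf p135)))) (.nd 7 (.nd 3 (.lf p136) (.lf p137)) (.nd 9 (.lf p138) (.nd 1 (.lf p139) (.lf p140)))))) (.nd 28 (.nd 17 (.nd 11 (.nd 9 (.lf p141) (.lf p142)) (.nd 2 (.lf p143) (.nd 3 (.lf p144) (.lf p145)))) (.nd 6 (.nd 1 (.lf p146) (.lf p147))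 (.nd 2 (.lf p148) (.nd 1 (.lf p149) (.lf p150))))) (.nd 17 (.nd 2 (.nd 1 (.lf p151) (.lf p152)) (.nd 2 (.lf p153) (.nd 9 (.lf p154) (.lf p155)))) (.nd 10 (.nd 6 (.lf p156) (.nd 1 (.lf p157) (.lf p158))) (.nd 1 (.lf p159) (.nd 1 (.lf p160) (.lf p161))))))))) (.nd 211 (.nd 118 (.nd 62 (.nd 31 (.nd 13 (.nd 6 (.nd 4 (.lf p162) (.lf p163)) (.nd 1 (.lf p164) (.nd 2 (.lf p165) (.lf p166)))) (.nd 5 (.nd 1 (.lf p167) (.lf p168)) (.nd 3 (.lf p169) (.nd 9 (.lf p170) (.lf p171))))) (.nd 21 (.nd 8 (.nd 5 (.lf p172) (.lf p173)) (.nd 3 (.lf p174) (.nd 9 (.lf p175) (.lf p176)))) (.nd 3 (.nd 2 (.lf p177) (.lf p178)) (.nd 2 (.lf p179) (.nd 2 (.lf p180) (.lf p181)))))) (.nd 29 (.nd 9 (.nd 2 (.nd 1 (.lf p182) (.lf p183)) (.nd 2 (.lf p184) (.nd 3 (.lf p185) (.lf p186)))) (.nd 5 (.nd 1 (.lf p187)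 (.lf p188)) (.nd 6 (.lf p189) (.nd 4 (.lf p190) (.lf p191))))) (.nd 14 (.nd 6 (.nd 4 (.lf p192) (.lf p193)) (.nd 4 (.lf p194) (.nd 3 (.lf p195) (.lf p196)))) (.nd 6 (.nd 5 (.lf p197) (.lf p198)) (.nd 1 (.lf p199) (.nd 2 (.lf p200) (.lf p201))))))) (.nd 49 (.nd 21 (.nd 12 (.nd 5 (.nd 3 (.lf p202) (.lf p203)) (.nd 4 (.lf p204) (.nd 1 (.lf p205) (.lf p206)))) (.nd 3 (.nd 1 (.lf p207) (.lf p208)) (.nd 3 (.lf p209) (.nd 2 (.lf p210) (.lf p211))))) (.nd 13 (.nd 4 (.nd 2 (.lf p212) (.lf p213)) (.nd 1 (.lf p214) (.nd 7 (.lf p215) (.lf p216)))) (.nd 5 (.nd 3 (.lf p217) (.lf p218)) (.nd 2 (.lf p219) (.nd 7 (.lf p220) (.lf p221)))))) (.nd 19 (.nd 10 (.nd 2 (.nd 1 (.lf p222) (.lf p223)) (.nd 2 (.lf p224) (.nd 2 (.lf p225) (.lf p226)))) (.nd 5 (.nd 2 (.lf p227) (.lf p228)) (.nd 2 (.lf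 p229) (.nd 1 (.lf p230) (.lf p231))))) (.nd 16 (.nd 8 (.nd 4 (.lf p232) (.lf p233)) (.nd 3 (.lf p234) (.nd 4 (.lf p235) (.lf p236)))) (.nd 3 (.nd 1 (.lf p237) (.nd 1 (.lf p238) (.lf p239))) (.nd 1 (.lf p240) (.nd 1 (.lf p241) (.lf p242)))))))) (.nd 146 (.nd 52 (.nd 22 (.nd 11 (.nd 5 (.nd 1 (.lf p243) (.lf p244)) (.nd 2 (.lf p245) (.nd 3 (.lf p246) (.lf p247)))) (.nd 5 (.nd 4 (.lf p248) (.lf p249)) (.nd 1 (.lf p250) (.nd 3 (.lf p251) (.lf p252))))) (.nd 7 (.nd 3 (.nd 1 (.lf p253) (.lf p254)) (.nd 1 (.lf p255) (.nd 2 (.lf p256) (.lf p257)))) (.nd 3 (.nd 1 (.lf p258) (.lf p259)) (.nd 1 (.lf p260) (.nd 6 (.lf p261) (.lf p262)))))) (.nd 44 (.nd 15 (.nd 5 (.nd 4 (.lf p263) (.lf p264)) (.nd 4 (.lf p265) (.nd 3 (.lf p266) (.lf p267)))) (.nd 14 (.nd 10 (.lf p268) (.lf p269)) (.nd 1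 (.lf p270) (.nd 10 (.lf p271) (.lf p272))))) (.nd 31 (.nd 14 (.nd 13 (.lf p273) (.lf p274)) (.nd 1 (.lf p275) (.nd 15 (.lf p276) (.lf p277)))) (.nd 8 (.nd 1 (.lf p278) (.lf p279)) (.nd 8 (.lf p280) (.nd 2 (.lf p281) (.lf p282))))))) (.nd 64 (.nd 32 (.nd 17 (.nd 7 (.nd 6 (.lf p283) (.lf p284)) (.nd 5 (.lf p285) (.nd 1 (.lf p286) (.lf p287)))) (.nd 5 (.nd 1 (.lf p288) (.lf p289)) (.nd 4 (.lf p290) (.nd 5 (.lf p291) (.lf p292))))) (.nd 21 (.nd 10 (.nd 1 (.lf p293) (.lf p294)) (.nd 2 (.lf p295) (.nd 5 (.lf p296) (.lf p297)))) (.nd 4 (.nd 3 (.lf p298) (.lf p299)) (.nd 2 (.lf p300) (.nd 4 (.lf p301) (.lf p302)))))) (.nd 19 (.nd 11 (.nd 6 (.nd 5 (.lf p303) (.lf p304)) (.nd 1 (.lf p305) (.nd 3 (.lf p306) (.lf p307)))) (.nd 5 (.nd 2 (.lf p308) (.lf p309)) (.nd 1 (.lf p310) (.nd 1 (.lf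 p311) (.lf p312))))) (.nd 5 (.nd 2 (.nd 1 (.lf p313) (.lf p314)) (.nd 1 (.lf p315) (.nd 1 (.lf p316) (.lf p317)))) (.nd 7 (.nd 1 (.lf p318) (.nd 1 (.lf p319) (.lf p320))) (.nd 1 (.lf p321) (.nd 2 (.lf p322) (.lf p323))))))))))

end Pool.Agent.MP_c853c5_nt.X.F4950a
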