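import Pool.Agent.MP_c853c5_nt.DV.F4950a.Tab
import Pool.Agent.MP_c853c5_nt.DV.F4950a.C0
import Pool.Agent.MP_c853c5_nt.DV.F4950a.C1
import Pool.Agent.MP_c853c5_nt.DV.F4950a.C2
import Pool.Agent.MP_c853c5_nt.DV.F4950a.C3
import Pool.Agent.MP_c853c5_nt.DV.F4950a.C4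

set_option autoImplicit false
set_option maxRecDepth 100000

namespace Pool.Agent.MP_c853c5_nt.X.F4950a

open Pool.Agent.MP_c853c5_nt.REG

theorem tabOK : tab.All (PP.Good34 495000) :=
  ⟨⟨⟨⟨⟨⟨⟨⟨g0, g1⟩, ⟨g2, ⟨g3, g4⟩⟩⟩, ⟨⟨g5, g6⟩, ⟨g7, ⟨g8, g9⟩⟩⟩⟩, ⟨⟨⟨g10, g11⟩, ⟨g12, ⟨g13, g14⟩⟩⟩, ⟨⟨g15, g16⟩, ⟨g17, ⟨g18, g19⟩⟩⟩⟩⟩, ⟨⟨⟨⟨g20, g21⟩, ⟨g22, ⟨g23, g24⟩⟩⟩, ⟨⟨g25, g26⟩, ⟨g27, ⟨g28, g29⟩⟩⟩⟩, ⟨⟨⟨g30, g31⟩, ⟨g32, ⟨g33, g34⟩⟩⟩, ⟨⟨g35, g36⟩, ⟨g37, ⟨g38, g39⟩⟩⟩⟩⟩⟩, ⟨⟨⟨⟨⟨g40, g41⟩, ⟨g42, ⟨g43, g44⟩⟩⟩, ⟨⟨g45, g46⟩, ⟨g47, ⟨g48, g49⟩⟩⟩⟩,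 ⟨⟨⟨g50, g51⟩, ⟨g52, ⟨g53, g54⟩⟩⟩, ⟨⟨g55, g56⟩, ⟨g57, ⟨g58, g59⟩⟩⟩⟩⟩, ⟨⟨⟨⟨g60, g61⟩, ⟨g62, ⟨g63, g64⟩⟩⟩, ⟨⟨g65, g66⟩, ⟨g67, ⟨g68, g69⟩⟩⟩⟩, ⟨⟨⟨g70, g71⟩, ⟨g72, ⟨g73, g74⟩⟩⟩, ⟨⟨g75, ⟨g76, g77⟩⟩, ⟨g78, ⟨g79, g80⟩⟩⟩⟩⟩⟩⟩, ⟨⟨⟨⟨⟨⟨g81, g82⟩, ⟨g83, ⟨g84, g85⟩⟩⟩, ⟨⟨g86, g87⟩, ⟨g88, ⟨g89, g90⟩⟩⟩⟩, ⟨⟨⟨g91, g92⟩, ⟨g93, ⟨g94, g95⟩⟩⟩, ⟨⟨g96, g97⟩, ⟨g98, ⟨g99, g100⟩⟩⟩⟩⟩, ⟨⟨⟨⟨g101, g102⟩, ⟨g103, ⟨g104, g105⟩⟩⟩, ⟨⟨g106, g107⟩, ⟨g108, ⟨g109, g110⟩⟩⟩⟩, ⟨⟨⟨g111, g112⟩, ⟨g113, ⟨g114, g115⟩⟩⟩, ⟨⟨g116, g117⟩, ⟨g118, ⟨g119, g120⟩⟩⟩⟩⟩⟩, ⟨⟨⟨⟨⟨g121,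 g122⟩, ⟨g123, ⟨g124, g125⟩⟩⟩, ⟨⟨g126, g127⟩, ⟨g128, ⟨g129, g130⟩⟩⟩⟩, ⟨⟨⟨g131, g132⟩, ⟨g133, ⟨g134, g135⟩⟩⟩, ⟨⟨g136, g137⟩, ⟨g138, ⟨g139, g140⟩⟩⟩⟩⟩, ⟨⟨⟨⟨g141, g142⟩, ⟨g143, ⟨g144, g145⟩⟩⟩, ⟨⟨g146, g147⟩, ⟨g148, ⟨g149, g150⟩⟩⟩⟩, ⟨⟨⟨g151, g152⟩, ⟨g153, ⟨g154, g155⟩⟩⟩, ⟨⟨g156, ⟨g157, g158⟩⟩, ⟨g159, ⟨g160, g161⟩⟩⟩⟩⟩⟩⟩⟩, ⟨⟨⟨⟨⟨⟨⟨g162, g163⟩, ⟨g164, ⟨g165, g166⟩⟩⟩, ⟨⟨g167, g168⟩, ⟨g169, ⟨g170, g171⟩⟩⟩⟩, ⟨⟨⟨g172, g173⟩, ⟨g174, ⟨g175, g176⟩⟩⟩, ⟨⟨g177, g178⟩, ⟨g179, ⟨g180, g181⟩⟩⟩⟩⟩, ⟨⟨⟨⟨g182, g183⟩, ⟨g184, ⟨g185, g186⟩⟩⟩, ⟨⟨g187,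 g188⟩, ⟨g189, ⟨g190, g191⟩⟩⟩⟩, ⟨⟨⟨g192, g193⟩, ⟨g194, ⟨g195, g196⟩⟩⟩, ⟨⟨g197, g198⟩, ⟨g199, ⟨g200, g201⟩⟩⟩⟩⟩⟩, ⟨⟨⟨⟨⟨g202, g203⟩, ⟨g204, ⟨g205, g206⟩⟩⟩, ⟨⟨g207, g208⟩, ⟨g209, ⟨g210, g211⟩⟩⟩⟩, ⟨⟨⟨g212, g213⟩, ⟨g214, ⟨g215, g216⟩⟩⟩, ⟨⟨g217, g218⟩, ⟨g219, ⟨g220, g221⟩⟩⟩⟩⟩, ⟨⟨⟨⟨g222, g223⟩, ⟨g224, ⟨g225, g226⟩⟩⟩, ⟨⟨g227, g228⟩, ⟨g229, ⟨g230, g231⟩⟩⟩⟩, ⟨⟨⟨g232, g233⟩, ⟨g234, ⟨g235, g236⟩⟩⟩, ⟨⟨g237, ⟨g238, g239⟩⟩, ⟨g240, ⟨g241, g242⟩⟩⟩⟩⟩⟩⟩, ⟨⟨⟨⟨⟨⟨g243, g244⟩, ⟨g245, ⟨g246, g247⟩⟩⟩, ⟨⟨g248, g249⟩, ⟨g250, ⟨g251, g252⟩⟩⟩⟩, ⟨⟨⟨g253,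 g254⟩, ⟨g255, ⟨g256, g257⟩⟩⟩, ⟨⟨g258, g259⟩, ⟨g260, ⟨g261, g262⟩⟩⟩⟩⟩, ⟨⟨⟨⟨g263, g264⟩, ⟨g265, ⟨g266, g267⟩⟩⟩, ⟨⟨g268, g269⟩, ⟨g270, ⟨g271, g272⟩⟩⟩⟩, ⟨⟨⟨g273, g274⟩, ⟨g275, ⟨g276, g277⟩⟩⟩, ⟨⟨g278, g279⟩, ⟨g280, ⟨g281, g282⟩⟩⟩⟩⟩⟩, ⟨⟨⟨⟨⟨g283, g284⟩, ⟨g285, ⟨g286, g287⟩⟩⟩, ⟨⟨g288, g289⟩, ⟨g290, ⟨g291, g292⟩⟩⟩⟩, ⟨⟨⟨g293, g294⟩, ⟨g295, ⟨g296, g297⟩⟩⟩, ⟨⟨g298, g299⟩, ⟨g300, ⟨g301, g302⟩⟩⟩⟩⟩, ⟨⟨⟨⟨g303, g304⟩, ⟨g305, ⟨g306, g307⟩⟩⟩, ⟨⟨g308, g309⟩, ⟨g310, ⟨g311, g312⟩⟩⟩⟩, ⟨⟨⟨g313, g314⟩, ⟨g315, ⟨g316, g317⟩⟩⟩, ⟨⟨g318, ⟨g319,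 g320⟩⟩, ⟨g321, ⟨g322, g323⟩⟩⟩⟩⟩⟩⟩⟩⟩

end Pool.Agent.MP_c853c5_nt.X.F4950a
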